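import Pool.Agent.Run7.h157.EU.Nec2
import Pool.Agent.Run7.h157.EU.Suf
import Pool.Agent.Run7.h157.EU.IsEU
import Pool.Agent.Run7.h157.EU.Pieces
import Pool.Agent.Run7.h157.EU.Anti

set_option autoImplicit false

namespace Pool.Agent.Results.MP_f6e960_lc.FewScalesCriterion

open Filter Topology Run7.h157.EU

/-- (1) For every Erdős–Ulam ideal `EU_f`, the criterion `Crit f` is necessary for having an
increasing-invariant isomorphic copy. (2) It is sufficient when the dyadic blocks of `f` are carried,
up to every `η`, by boundedly many levels. (3) It is not needed for nonincreasing `f`.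
(4) For consecutive intervals of lengths `s n → ∞` with uniform measures: an increasing-invariant
copy exists iff the number of `n` with `s n ∈ [N, 2N)` is bounded in `N`. -/
theorem result :
    (∀ f : ℕ → ℝ, Good f → HasCopy (EU f) → Crit f) ∧
    (∀ f : ℕ → ℝ, Good f → FewScales f → Crit f → HasCopy (EU f)) ∧
    (∀ f : ℕ → ℝ, Good f → Antitone f → HasCopy (EU f)) ∧
    (∀ s : ℕ → ℕ, (∀ n, 0 < s n) → Tendsto s atTop atTop →
      ∃ f : ℕ → ℝ, Good f ∧ EU f = Unif (Blk s) ∧
        (HasCopy (EU f) ↔ ∃ K : ℕ, ∀ N : ℕ, {n | N ≤ s n ∧ s n < 2 * N}.ncard ≤ K)) := by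
  refine ⟨fun f hf h => crit_of_copy hf h, fun f hf h1 h2 => copy_of_crit hf h1 h2,
    fun f hf h => anti hf h, fun s hs hs' => ?_⟩
  obtain ⟨f, hf, hEU⟩ := isEU s hs hs'
  refine ⟨f, hf, hEU, ?_⟩
  rw [hEU]
  have hc : Tendsto (fun n => (Blk s n).card) atTop atTop := by simpa [Blk_card] using hs'
  constructor
  · intro h
    have h1 := nec (Blk s) (Blk_dis s) hc h
    simpa only [Blk_card] using h1
  · intro h
    exact suf (Blk s) (Blk_dis s) (Blk_cov s hs) hc (by simpa only [Blk_card] using h)

end Pool.Agent.Results.MP_f6e960_lc.FewScalesCriterion
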